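import Mathlib

/-!
# A multiplicative weights algorithm for dominating sets
-/

namespace Pool.Agent.W989.BC

/-- Weight of the vertex `u` after the choices `P`. -/
def wt (nb : ℕ → ℕ → Bool) (k : ℕ) (P : List ℕ) (u : ℕ) : ℕ :=
  (P.map fun t => if nb u t = true then 2 * k - 1 else 2 * k).prod

/-- Total weight. -/
def tot (nb : ℕ → ℕ → Bool) (n k : ℕ) (P : List ℕ) : ℕ := ((List.range n).map (wt nb k P)).sum

/-- Weight of the neighbourhood of `v`. -/
def score (nb : ℕ → ℕ → Bool) (n k : ℕ) (P : List ℕ) (v : ℕ) : ℕ :=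
  (((List.range n).filter fun u => nb u v).map (wt nb k P)).sum

/-- One step: choose a vertex with a neighbourhood of large weight. -/
def step (nb : ℕ → ℕ → Bool) (n k : ℕ) (P : List ℕ) : List ℕ :=
  (((List.range n).filter fun v => decide (tot nb n k P ≤ k * score nb n k P v)).head?.getD 0) :: P

/-- All choices. -/
def picks (nb : ℕ → ℕ → Bool) (n k T : ℕ) : List ℕ := (step nb n k)^[T] []

/-- Number of times the neighbourhood of `u` is hit. -/
def cnt (nb : ℕ → ℕ → Bool) (P : List ℕ) (u : ℕ) : ℕ := (P.filter fun t => nb u t).length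

/-- The number of rounds. -/
def rounds (n k : ℕ) : ℕ := (k + 1) * (4 * k * k * n)

/-- The test for `0 < k < n`. -/
def test (nb : ℕ → ℕ → Bool) (n k : ℕ) : Bool :=
  (List.range n).all fun u =>
    decide (rounds n k < (k + 1) * cnt nb (picks nb n k (rounds n k)) u)

variable {nb : ℕ → ℕ → Bool} {n k : ℕ}

theorem picks_succ (T : ℕ) : picks nb n k (T + 1) = step nb n k (picks nb n k T) := by
  unfold picks; rw [Function.iterate_succ_apply']

theorem length_picks (T : ℕ) : (picks nb n k T).length = T := by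
  induction T with
  | zero => rfl
  | succ T ih => rw [picks_succ, step, List.length_cons, ih]

theorem wt_cons (t : ℕ) (P : List ℕ) (u : ℕ) :
    wt nb k (t :: P) u = (if nb u t = true then 2 * k - 1 else 2 * k) * wt nb k P u := by
  simp [wt]

theorem wt_eq (P : List ℕ) (u : ℕ) :
    wt nb k P u = (2 * k - 1) ^ (cnt nb P u) * (2 * k) ^ (P.length - cnt nb P u) := by
  induction P with
  | nil => simp [wt, cnt]
  | cons t P ih =>
    rw [wt_cons, ih]
    have hle : cnt nb P u ≤ P.length := List.length_filter_le _ _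
    by_cases h : nb u t = true
    · have : cnt nb (t :: P) u = cnt nb P u + 1 := by simp [cnt, h]
      rw [if_pos h, this, List.length_cons, show P.length + 1 - (cnt nb P u + 1) =
        P.length - cnt nb P u by omega, pow_succ]
      ring
    · have : cnt nb (t :: P) u = cnt nb P u := by simp [cnt, h]
      rw [if_neg h, this, List.length_cons, show P.length + 1 - cnt nb P u =
        (P.length - cnt nb P u) + 1 by omega, pow_succ]
      ring

theorem tot_cons (hk : 1 ≤ k) (t : ℕ) (P : List ℕ) :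
    tot nb n k (t :: P) + score nb n k P t = 2 * k * tot nb n k P := by
  unfold tot score
  generalize List.range n = L
  induction L with
  | nil => simp
  | cons u L ih =>
    rw [List.map_cons, List.sum_cons, wt_cons, List.map_cons, List.sum_cons]
    by_cases h : nb u t = true
    · rw [List.filter_cons_of_pos (by simpa using h), List.map_cons, List.sum_cons, if_pos h]
      obtain ⟨j, hj⟩ : ∃ j, 2 * k = j + 1 := ⟨2 * k - 1, by omega⟩
      rw [show 2 * k - 1 = j by omega]
      rw [hj] at ih ⊢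
      linarith
    · rw [List.filter_cons_of_neg (by simpa using h), if_neg h]
      linarith

/-- Weak duality: with a dominating set `D`, some neighbourhood has large weight. -/
theorem exists_score (D : Finset ℕ) (hDk : D.card ≤ k) (hDn : ∀ d ∈ D, d < n)
    (hD : ∀ u < n, ∃ d ∈ D, nb u d = true) (hn : 0 < n) (P : List ℕ) :
    ∃ v < n, tot nb n k P ≤ k * score nb n k P v := by
  have h1 : tot nb n k P ≤ ∑ d ∈ D, score nb n k P d := by
    unfold tot score
    have hL : ∀ L : List ℕ, (∀ u ∈ L, u < n) → (L.map (wt nb k P)).sum ≤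
        ∑ d ∈ D, ((L.filter fun u => nb u d).map (wt nb k P)).sum := by
      intro L
      induction L with
      | nil => intro _; simp
      | cons u L ih =>
        intro hL
        have ih := ih (fun v hv => hL v (List.mem_cons_of_mem _ hv))
        obtain ⟨d, hd, hud⟩ := hD u (hL u (List.mem_cons_self ..))
        rw [List.map_cons, List.sum_cons]
        have h2 : ∀ d ∈ D, ((L.filter fun u => nb u d).map (wt nb k P)).sum ≤
            (((u :: L).filter fun u => nb u d).map (wt nb k P)).sum := by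
          intro d _
          by_cases h : nb u d = true
          · rw [List.filter_cons_of_pos (by simpa using h), List.map_cons, List.sum_cons]
            omega
          · rw [List.filter_cons_of_neg (by simpa using h)]
        rw [← Finset.add_sum_erase _ _ hd]
        rw [← Finset.add_sum_erase _ _ hd] at ih
        have h3 := Finset.sum_le_sum (s := D.erase d) (fun e he => h2 e (Finset.mem_of_mem_erase he))
        rw [List.filter_cons_of_pos (by simpa using hud), List.map_cons, List.sum_cons]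
        omega
    exact hL _ (fun u hu => List.mem_range.1 hu)
  by_contra hc
  push Not at hc
  have hpos : 0 < tot nb n k P := lt_of_le_of_lt (Nat.zero_le _) (hc 0 hn)
  have h2 : k * ∑ d ∈ D, score nb n k P d ≤ D.card * (tot nb n k P - 1) := by
    rw [Finset.mul_sum, ← smul_eq_mul (a := D.card), ← Finset.sum_const]
    refine Finset.sum_le_sum fun d hd => ?_
    have := hc d (hDn d hd)
    omega
  have h3 : k * tot nb n k P ≤ k * ∑ d ∈ D, score nb n k P d := Nat.mul_le_mul_left _ h1
  have h4 : D.card * (tot nb n k P - 1) ≤ k * (tot nb n k P - 1) := Nat.mul_le_mul_right _ hDk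
  have h5 := h3.trans (h2.trans h4)
  rcases Nat.eq_zero_or_pos k with h0 | h0
  · -- no dominating set with at most `0` vertices
    rw [h0, Nat.le_zero, Finset.card_eq_zero] at hDk
    obtain ⟨d, hd, _⟩ := hD 0 hn
    rw [hDk] at hd
    simp at hd
  · have := Nat.le_of_mul_le_mul_left h5 h0
    omega

theorem score_step (D : Finset ℕ) (hDk : D.card ≤ k) (hDn : ∀ d ∈ D, d < n)
    (hD : ∀ u < n, ∃ d ∈ D, nb u d = true) (hn : 0 < n) (P : List ℕ) :
    ∃ v, step nb n k P = v :: P ∧ tot nb n k P ≤ k * score nb n k P v := by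
  refine ⟨_, rfl, ?_⟩
  obtain ⟨v, hv, hv2⟩ := exists_score D hDk hDn hD hn P
  have hmem : v ∈ (List.range n).filter fun v => decide (tot nb n k P ≤ k * score nb n k P v) := by
    rw [List.mem_filter, List.mem_range]
    exact ⟨hv, by simpa using hv2⟩
  cases hl : (List.range n).filter fun v => decide (tot nb n k P ≤ k * score nb n k P v) with
  | nil => rw [hl] at hmem; simp at hmem
  | cons w l =>
    have hw : w ∈ (List.range n).filter fun v => decide (tot nb n k P ≤ k * score nb n k P v) := by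
      rw [hl]; simp
    rw [List.mem_filter] at hw
    simpa using hw.2

theorem potential (hk : 1 ≤ k) (D : Finset ℕ) (hDk : D.card ≤ k) (hDn : ∀ d ∈ D, d < n)
    (hD : ∀ u < n, ∃ d ∈ D, nb u d = true) (hn : 0 < n) (T : ℕ) :
    k ^ T * tot nb n k (picks nb n k T) ≤ (2 * k * k - 1) ^ T * n := by
  induction T with
  | zero =>
    have : wt nb k [] = fun _ => 1 := by funext u; simp [wt]
    simp [picks, tot, this]
  | succ T ih =>
    rw [picks_succ]
    obtain ⟨v, hv1, hv2⟩ := score_step D hDk hDn hD hn (picks nb n k T)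
    rw [hv1]
    have h1 := tot_cons (nb := nb) (n := n) hk v (picks nb n k T)
    have h2 : k * tot nb n k (v :: picks nb n k T) ≤ (2 * k * k - 1) * tot nb n k (picks nb n k T) := by
      generalize tot nb n k (picks nb n k T) = a at *
      generalize tot nb n k (v :: picks nb n k T) = b at *
      generalize score nb n k (picks nb n k T) v = c at *
      have h3 : k * b + k * c = 2 * k * k * a := by
        calc k * b + k * c = k * (b + c) := by ring
          _ = k * (2 * k * a) := by rw [h1]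
          _ = 2 * k * k * a := by ring
      rw [Nat.sub_mul, one_mul]
      omega
    calc k ^ (T + 1) * tot nb n k (v :: picks nb n k T)
        = k ^ T * (k * tot nb n k (v :: picks nb n k T)) := by ring
      _ ≤ k ^ T * ((2 * k * k - 1) * tot nb n k (picks nb n k T)) := Nat.mul_le_mul_left _ h2
      _ = (2 * k * k - 1) * (k ^ T * tot nb n k (picks nb n k T)) := by ring
      _ ≤ (2 * k * k - 1) * ((2 * k * k - 1) ^ T * n) := Nat.mul_le_mul_left _ ih
      _ = (2 * k * k - 1) ^ (T + 1) * n := by ring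

theorem ratio (hk : 1 ≤ k) : (1 + 1 / (2 * (2 * (k : ℝ) * k))) * (2 * (k : ℝ) * k - 1) ^ (k + 1) ≤
    k * (2 * k - 1) * (2 * (k : ℝ) * k) ^ k := by
  have hk' : (1 : ℝ) ≤ k := by exact_mod_cast hk
  obtain ⟨X, hX⟩ : ∃ X : ℝ, X = 2 * (k : ℝ) * k := ⟨_, rfl⟩
  have hX2 : 2 ≤ X := by rw [hX]; nlinarith
  rw [← hX]
  have hX1 : 0 < X - 1 := by linarith
  have hX0 : 0 < X := by linarith
  -- Bernoulli
  have hb := one_add_mul_le_pow (a := 1 / (X - 1)) (by
    have : 0 < 1 / (X - 1) := by positivity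
    linarith) (k + 1)
  have e1 : 1 + 1 / (X - 1) = X / (X - 1) := by field_simp; ring
  rw [e1, div_pow] at hb
  have hpos : 0 < (X - 1) ^ (k + 1) := by positivity
  rw [le_div_iff₀ hpos] at hb
  have e2 : (1 + ((k + 1 : ℕ) : ℝ) * (1 / (X - 1))) = (X + k) / (X - 1) := by
    push_cast; field_simp; ring
  rw [e2, div_mul_eq_mul_div, div_le_iff₀ hX1] at hb
  -- hb : (X + k) * (X - 1) ^ (k + 1) ≤ X ^ (k + 1) * (X - 1)
  have hXk : 0 < X - k := by rw [hX]; nlinarith
  have e3 : (k : ℝ) * (2 * k - 1) = X - k := by rw [hX]; ring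
  rw [e3]
  -- multiply by `2 X * X * (X - 1)`
  have hfac : (0 : ℝ) < X * (X - 1) := by positivity
  rw [← mul_le_mul_iff_right₀ hfac]
  have h5 : (X - k) * ((X + k) * (X - 1) ^ (k + 1)) ≤ (X - k) * (X ^ (k + 1) * (X - 1)) :=
    mul_le_mul_of_nonneg_left hb hXk.le
  have h6 : X * (X - 1) * ((1 + 1 / (2 * X)) * (X - 1) ^ (k + 1)) =
      ((X + 1 / 2) * (X - 1)) * (X - 1) ^ (k + 1) := by
    field_simp
  have h7 : (X + 1 / 2) * (X - 1) ≤ (X - k) * (X + k) := by
    have : (k : ℝ) * k = X / 2 := by rw [hX]; ring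
    nlinarith
  calc X * (X - 1) * ((1 + 1 / (2 * X)) * (X - 1) ^ (k + 1))
      = ((X + 1 / 2) * (X - 1)) * (X - 1) ^ (k + 1) := h6
    _ ≤ ((X - k) * (X + k)) * (X - 1) ^ (k + 1) := mul_le_mul_of_nonneg_right h7 hpos.le
    _ = (X - k) * ((X + k) * (X - 1) ^ (k + 1)) := by ring
    _ ≤ (X - k) * (X ^ (k + 1) * (X - 1)) := h5
    _ = X * (X - 1) * ((X - k) * X ^ k) := by ring

/-- Completeness of the test. -/
theorem test_of_dom (hk : 1 ≤ k) (D : Finset ℕ) (hDk : D.card ≤ k) (hDn : ∀ d ∈ D, d < n)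
    (hD : ∀ u < n, ∃ d ∈ D, nb u d = true) (hn : 0 < n) : test nb n k = true := by
  unfold test
  rw [List.all_eq_true]
  intro u hu
  rw [List.mem_range] at hu
  rw [decide_eq_true_eq]
  by_contra hc
  push Not at hc
  obtain ⟨L, hL⟩ : ∃ L, L = 4 * k * k * n := ⟨_, rfl⟩
  obtain ⟨T, hT⟩ : ∃ T, T = rounds n k := ⟨_, rfl⟩
  have hTL : T = (k + 1) * L := by rw [hT, hL]; rfl
  rw [← hT] at hc
  obtain ⟨c, hcc⟩ : ∃ c, c = cnt nb (picks nb n k T) u := ⟨_, rfl⟩
  rw [← hcc, hTL] at hc
  have hcL : c ≤ L := Nat.le_of_mul_le_mul_left hc (by omega)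
  have h1 := potential hk D hDk hDn hD hn T
  have h2 : wt nb k (picks nb n k T) u ≤ tot nb n k (picks nb n k T) := by
    unfold tot
    exact List.single_le_sum (fun _ _ => Nat.zero_le _) _
      (List.mem_map.2 ⟨u, List.mem_range.2 hu, rfl⟩)
  rw [wt_eq, length_picks, ← hcc] at h2
  have h3 : k ^ T * ((2 * k - 1) ^ c * (2 * k) ^ (T - c)) ≤ (2 * k * k - 1) ^ T * n :=
    (Nat.mul_le_mul_left _ h2).trans h1
  -- replace `c` by `L`
  have h4 : (2 * k - 1) ^ L * (2 * k) ^ (k * L) ≤ (2 * k - 1) ^ c * (2 * k) ^ (T - c) := by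
    have e : T - c = (L - c) + k * L := by rw [hTL, Nat.add_mul, one_mul]; omega
    rw [e, pow_add, ← mul_assoc]
    refine Nat.mul_le_mul_right _ ?_
    calc (2 * k - 1) ^ L = (2 * k - 1) ^ c * (2 * k - 1) ^ (L - c) := by
          rw [← pow_add]; congr 1; omega
      _ ≤ (2 * k - 1) ^ c * (2 * k) ^ (L - c) :=
          Nat.mul_le_mul_left _ (Nat.pow_le_pow_left (by omega) _)
  have h5 : k ^ T * ((2 * k - 1) ^ L * (2 * k) ^ (k * L)) ≤ (2 * k * k - 1) ^ T * n :=
    (Nat.mul_le_mul_left _ h4).trans h3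
  -- to the real numbers
  have hk' : (1 : ℝ) ≤ k := by exact_mod_cast hk
  have hc1 : ((2 * k - 1 : ℕ) : ℝ) = 2 * k - 1 := by
    rw [Nat.cast_sub (by omega)]; push_cast; ring
  have hkk : 1 ≤ 2 * k * k := by nlinarith
  have hc2 : ((2 * k * k - 1 : ℕ) : ℝ) = 2 * k * k - 1 := by
    rw [Nat.cast_sub hkk]; push_cast; ring
  have h6 : (k : ℝ) ^ T * ((2 * k - 1) ^ L * (2 * k) ^ (k * L)) ≤ (2 * k * k - 1) ^ T * n := by
    have : ((k ^ T * ((2 * k - 1) ^ L * (2 * k) ^ (k * L)) : ℕ) : ℝ) ≤
        (((2 * k * k - 1) ^ T * n : ℕ) : ℝ) := by exact_mod_cast h5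
    push_cast [hc1, hc2] at this
    exact this
  have e1 : (k : ℝ) ^ T * ((2 * k - 1) ^ L * (2 * k) ^ (k * L)) =
      (k * (2 * k - 1) * (2 * (k : ℝ) * k) ^ k) ^ L := by
    rw [hTL, pow_mul, pow_mul, ← mul_pow, ← mul_pow]
    congr 1
    rw [mul_pow (2 * (k : ℝ)) k k, pow_succ]
    ring
  have e2 : (2 * (k : ℝ) * k - 1) ^ T = ((2 * (k : ℝ) * k - 1) ^ (k + 1)) ^ L := by
    rw [hTL, pow_mul]
  rw [e1, e2] at h6
  have hXpos : 0 < 2 * (k : ℝ) * k - 1 := by nlinarith
  have h7 : ((1 + 1 / (2 * (2 * (k : ℝ) * k))) * (2 * (k : ℝ) * k - 1) ^ (k + 1)) ^ L ≤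
      (k * (2 * k - 1) * (2 * (k : ℝ) * k) ^ k) ^ L :=
    pow_le_pow_left₀ (by positivity) (ratio hk) L
  rw [mul_pow] at h7
  have h8 : (1 + 1 / (2 * (2 * (k : ℝ) * k))) ^ L ≤ n := by
    have hp : 0 < ((2 * (k : ℝ) * k - 1) ^ (k + 1)) ^ L := by positivity
    have := h7.trans h6
    rw [mul_comm _ (n : ℝ)] at this
    exact le_of_mul_le_mul_right this hp
  have h9 := one_add_mul_le_pow (a := 1 / (2 * (2 * (k : ℝ) * k))) (by
    have : 0 < 1 / (2 * (2 * (k : ℝ) * k)) := by positivity
    linarith) L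
  have e3 : (L : ℝ) * (1 / (2 * (2 * (k : ℝ) * k))) = n := by
    rw [hL]; push_cast
    field_simp
    ring
  rw [e3] at h9
  linarith

end Pool.Agent.W989.BC
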