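import Pool.Agent.W989.BC.Color
import Pool.Agent.W989.BC.Mwu
import Pool.Agent.H622R2.MatGraph
import Pool.Agent.H671R2.PolyAuto
import Pool.Agent.H550R2.Iso.Raw

/-!
# Dominating sets in balanced chordal graphs in polynomial time
-/

namespace Pool.Agent.W989.BC

open Pool.Agent.NPC Pool.Agent.H622R2

variable {α : Type} [TEnc α]

theorem size_mul_le (a b : ℕ) : (a * b).size ≤ a.size + b.size := by
  rw [Nat.size_le, pow_add]
  exact Nat.mul_lt_mul'' (Nat.lt_size_self a) (Nat.lt_size_self b)

/-- Products of lists. -/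
theorem poly_prod {l : α → List ℕ} (hl : NPC.Poly l) : NPC.Poly (fun a => (l a).prod) := by
  obtain ⟨r, hr⟩ := hl.sz_le
  refine (NPC.Poly.foldr (s := fun _ => 1) (F := fun _ x s => x * s) hl (NPC.Poly.const 1)
    (NPC.Poly.mul (NPC.Poly.fst (NPC.Poly.snd NPC.Poly.id)) (NPC.Poly.snd (NPC.Poly.snd NPC.Poly.id)))
    (Polynomial.C 4 * r + Polynomial.C 5) ?_).congr fun a => ?_
  · intro a k hk
    have key : ∀ l : List ℕ, (l.foldr (fun x s => x * s) 1).size ≤ sz l + 1 := by
      intro l
      induction l with
      | nil => simp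
      | cons x l ih =>
        rw [List.foldr_cons]
        have h1 := size_mul_le x (l.foldr (fun x s => x * s) 1)
        have h2 := size_le_sz x
        simp only [sz_list_cons]
        omega
    have h1 := sz_nat_le (((l a).drop k).foldr (fun x s => x * s) 1)
    have h2 := key ((l a).drop k)
    have h3 := NPC.Poly.sz_drop_le (l a) k
    have h4 := hr a
    simp only [Polynomial.eval_add, Polynomial.eval_mul, Polynomial.eval_C]
    omega
  · rw [List.prod_eq_foldr]

/-- Closed adjacency. -/
def nbM (M : List (List Bool)) (u v : ℕ) : Bool := decide (u = v) || entry M u v || entry M v u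

theorem poly_nbM {M : α → List (List Bool)} {u v : α → ℕ} (hM : NPC.Poly M) (hu : NPC.Poly u)
    (hv : NPC.Poly v) : NPC.Poly (fun a => nbM (M a) (u a) (v a)) := by
  unfold nbM entry
  fun_prop

theorem poly_wt {M : α → List (List Bool)} {k : α → ℕ} {P : α → List ℕ} {u : α → ℕ}
    (hM : NPC.Poly M) (hk : NPC.Poly k) (hP : NPC.Poly P) (hu : NPC.Poly u) :
    NPC.Poly (fun a => wt (nbM (M a)) (k a) (P a) (u a)) := by
  unfold wt
  refine poly_prod (NPC.Poly.map (F := fun a t => if nbM (M a) (u a) t = true then 2 * k a - 1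
    else 2 * k a) hP ?_)
  refine NPC.Poly.ite ?_ ?_ ?_
  · exact NPC.Poly.decide_bool (poly_nbM (hM.comp (NPC.Poly.fst NPC.Poly.id))
      (hu.comp (NPC.Poly.fst NPC.Poly.id)) (NPC.Poly.snd NPC.Poly.id))
  · have := hk.comp (NPC.Poly.fst (α := α × ℕ) NPC.Poly.id)
    exact NPC.Poly.sub (NPC.Poly.mul (NPC.Poly.const 2) this) (NPC.Poly.const 1)
  · have := hk.comp (NPC.Poly.fst (α := α × ℕ) NPC.Poly.id)
    exact NPC.Poly.mul (NPC.Poly.const 2) this

theorem poly_tot {M : α → List (List Bool)} {k : α → ℕ} {P : α → List ℕ}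
    (hM : NPC.Poly M) (hk : NPC.Poly k) (hP : NPC.Poly P) :
    NPC.Poly (fun a => tot (nbM (M a)) (M a).length (k a) (P a)) := by
  unfold tot
  refine NPC.Poly.sum (NPC.Poly.map (F := fun a u => wt (nbM (M a)) (k a) (P a) u)
    (NPC.Poly.range_length hM) ?_)
  exact poly_wt (hM.comp (NPC.Poly.fst NPC.Poly.id)) (hk.comp (NPC.Poly.fst NPC.Poly.id))
    (hP.comp (NPC.Poly.fst NPC.Poly.id)) (NPC.Poly.snd NPC.Poly.id)

theorem poly_score {M : α → List (List Bool)} {k : α → ℕ} {P : α → List ℕ} {v : α → ℕ}
    (hM : NPC.Poly M) (hk : NPC.Poly k) (hP : NPC.Poly P) (hv : NPC.Poly v) :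
    NPC.Poly (fun a => score (nbM (M a)) (M a).length (k a) (P a) (v a)) := by
  unfold score
  have h1 : NPC.Poly (fun a => (List.range (M a).length).filter fun u => nbM (M a) u (v a)) :=
    NPC.Poly.filter (p := fun a u => nbM (M a) u (v a)) (NPC.Poly.range_length hM)
      (poly_nbM (hM.comp (NPC.Poly.fst NPC.Poly.id)) (NPC.Poly.snd NPC.Poly.id)
        (hv.comp (NPC.Poly.fst NPC.Poly.id)))
  refine NPC.Poly.sum (NPC.Poly.map (F := fun a u => wt (nbM (M a)) (k a) (P a) u) h1 ?_)
  exact poly_wt (hM.comp (NPC.Poly.fst NPC.Poly.id)) (hk.comp (NPC.Poly.fst NPC.Poly.id))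
    (hP.comp (NPC.Poly.fst NPC.Poly.id)) (NPC.Poly.snd NPC.Poly.id)

theorem poly_step {M : α → List (List Bool)} {k : α → ℕ} {P : α → List ℕ}
    (hM : NPC.Poly M) (hk : NPC.Poly k) (hP : NPC.Poly P) :
    NPC.Poly (fun a => step (nbM (M a)) (M a).length (k a) (P a)) := by
  unfold step
  have f1 : NPC.Poly (fun p : α × ℕ => M p.1) := hM.comp (NPC.Poly.fst NPC.Poly.id)
  have f2 : NPC.Poly (fun p : α × ℕ => k p.1) := hk.comp (NPC.Poly.fst NPC.Poly.id)
  have f3 : NPC.Poly (fun p : α × ℕ => P p.1) := hP.comp (NPC.Poly.fst NPC.Poly.id)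
  have h1 : NPC.Poly (fun a => (List.range (M a).length).filter fun v =>
      decide (tot (nbM (M a)) (M a).length (k a) (P a) ≤
        k a * score (nbM (M a)) (M a).length (k a) (P a) v)) := by
    refine NPC.Poly.filter (p := fun a v => decide (tot (nbM (M a)) (M a).length (k a) (P a) ≤
        k a * score (nbM (M a)) (M a).length (k a) (P a) v)) (NPC.Poly.range_length hM) ?_
    exact NPC.Poly.decide_le (poly_tot f1 f2 f3)
      (NPC.Poly.mul f2 (poly_score f1 f2 f3 (NPC.Poly.snd NPC.Poly.id)))
  exact NPC.Poly.cons (NPC.Poly.optGetD (NPC.Poly.head? h1) (NPC.Poly.const 0)) hP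

theorem picks_le (nb : ℕ → ℕ → Bool) (n k T : ℕ) : ∀ t ∈ picks nb n k T, t ≤ n := by
  induction T with
  | zero => intro t ht; simp [picks] at ht
  | succ T ih =>
    intro t ht
    rw [picks_succ, step, List.mem_cons] at ht
    rcases ht with rfl | ht
    · cases hl : (List.range n).filter fun v =>
          decide (tot nb n k (picks nb n k T) ≤ k * score nb n k (picks nb n k T) v) with
      | nil => simp
      | cons w l =>
        have hw : w ∈ (List.range n).filter fun v =>
            decide (tot nb n k (picks nb n k T) ≤ k * score nb n k (picks nb n k T) v) := by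
          rw [hl]; simp
        rw [List.mem_filter, List.mem_range] at hw
        simpa using hw.1.le
    · exact ih t ht

theorem picks_lt (nb : ℕ → ℕ → Bool) {n : ℕ} (hn : 0 < n) (k T : ℕ) :
    ∀ t ∈ picks nb n k T, t < n := by
  induction T with
  | zero => intro t ht; simp [picks] at ht
  | succ T ih =>
    intro t ht
    rw [picks_succ, step, List.mem_cons] at ht
    rcases ht with rfl | ht
    · cases hl : (List.range n).filter fun v =>
          decide (tot nb n k (picks nb n k T) ≤ k * score nb n k (picks nb n k T) v) with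
      | nil => simpa using hn
      | cons w l =>
        have hw : w ∈ (List.range n).filter fun v =>
            decide (tot nb n k (picks nb n k T) ≤ k * score nb n k (picks nb n k T) v) := by
          rw [hl]; simp
        rw [List.mem_filter, List.mem_range] at hw
        simpa using hw.1
    · exact ih t ht

theorem uPoly_rounds {n k : α → ℕ} (hn : UPoly n) (hk : UPoly k) :
    UPoly (fun a => rounds (n a) (k a)) := by
  unfold rounds
  exact UPoly.mul (UPoly.add hk (UPoly.const 1))
    (UPoly.mul (UPoly.mul (UPoly.mul (UPoly.const 4) hk) hk) hn)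

theorem rounds_mono {n k m : ℕ} (hn : n ≤ m) (hk : k ≤ m) : rounds n k ≤ rounds m m := by
  unfold rounds
  gcongr

theorem poly_picks {M : α → List (List Bool)} {k : α → ℕ} (hM : NPC.Poly M) (hk : NPC.Poly k)
    (hkM : ∀ a, k a ≤ (M a).length) :
    NPC.Poly (fun a => picks (nbM (M a)) (M a).length (k a) (rounds (M a).length (k a))) := by
  have hn : UPoly (fun a => (M a).length) := UPoly.length hM
  have hku : UPoly k := UPoly.of_le hk hn hkM
  have hT := uPoly_rounds hn hku
  obtain ⟨r, hr⟩ := hM.sz_le
  refine (NPC.Poly.iterLen (l := fun a => List.replicate (rounds (M a).length (k a)) ())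
    (s := fun _ => ([] : List ℕ)) (F := fun a P => step (nbM (M a)) (M a).length (k a) P) hT
    (NPC.Poly.const _) (poly_step (hM.comp (NPC.Poly.fst NPC.Poly.id))
      (hk.comp (NPC.Poly.fst NPC.Poly.id)) (NPC.Poly.snd NPC.Poly.id))
    (((r + Polynomial.C 1) * (Polynomial.C 4 * r * r * r)) *
      (Polynomial.C 4 * r + Polynomial.C 2) + Polynomial.C 1) ?_).congr fun a => ?_
  · intro a j hj
    rw [List.length_replicate] at hj
    have h1 : sz (picks (nbM (M a)) (M a).length (k a) j) ≤ j * ((4 * (M a).length + 1) + 1) + 1 := by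
      have h2 := sz_le_length_mul (picks (nbM (M a)) (M a).length (k a) j)
        (4 * (M a).length + 1) (by
          intro t ht
          have h3 := picks_le _ _ _ _ t ht
          have h4 := sz_nat_le t
          have h5 := NPC.Poly.size_le_self t
          omega)
      rwa [length_picks] at h2
    have h2 : (M a).length ≤ r.eval (sz a) := (length_lt_sz (M a)).le.trans (hr a)
    have h3 : j ≤ rounds (r.eval (sz a)) (r.eval (sz a)) :=
      hj.trans (rounds_mono h2 ((hkM a).trans h2))
    have h4 : j * ((4 * (M a).length + 1) + 1) ≤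
        rounds (r.eval (sz a)) (r.eval (sz a)) * (4 * r.eval (sz a) + 2) :=
      Nat.mul_le_mul h3 (by omega)
    refine h1.trans ?_
    simp only [Polynomial.eval_add, Polynomial.eval_mul, Polynomial.eval_C]
    unfold rounds at h4
    omega
  · rw [List.length_replicate]
    rfl

theorem poly_test {M : α → List (List Bool)} {k : α → ℕ} (hM : NPC.Poly M) (hk : NPC.Poly k)
    (hkM : ∀ a, k a ≤ (M a).length) :
    NPC.Poly (fun a => test (nbM (M a)) (M a).length (k a)) := by
  unfold test
  have hn : UPoly (fun a => (M a).length) := UPoly.length hM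
  have hku : UPoly k := UPoly.of_le hk hn hkM
  have hT : NPC.Poly (fun a => rounds (M a).length (k a)) := (uPoly_rounds hn hku).toPoly
  have hP := poly_picks hM hk hkM
  refine NPC.Poly.all (p := fun a u => decide (rounds (M a).length (k a) < (k a + 1) *
    cnt (nbM (M a)) (picks (nbM (M a)) (M a).length (k a) (rounds (M a).length (k a))) u))
    (NPC.Poly.range_length hM) ?_
  refine NPC.Poly.decide_lt (hT.comp (NPC.Poly.fst NPC.Poly.id)) (NPC.Poly.mul
    (NPC.Poly.succ (hk.comp (NPC.Poly.fst NPC.Poly.id))) ?_)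
  unfold cnt
  refine NPC.Poly.length (NPC.Poly.filter (p := fun (p : α × ℕ) t => nbM (M p.1) p.2 t)
    (hP.comp (NPC.Poly.fst NPC.Poly.id)) ?_)
  exact poly_nbM (hM.comp (NPC.Poly.fst (NPC.Poly.fst NPC.Poly.id)))
    (NPC.Poly.snd (NPC.Poly.fst NPC.Poly.id)) (NPC.Poly.snd NPC.Poly.id)

/-- The algorithm. -/
def alg (x : List (List Bool) × ℕ) : Bool :=
  decide (x.1.length ≤ x.2) || test (nbM x.1) x.1.length (min x.2 x.1.length)

theorem poly_alg : NPC.Poly alg := by
  unfold alg
  exact NPC.Poly.or (NPC.Poly.decide_le (NPC.Poly.length (NPC.Poly.fst NPC.Poly.id))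
    (NPC.Poly.snd NPC.Poly.id)) (poly_test (NPC.Poly.fst NPC.Poly.id)
      (NPC.Poly.min (NPC.Poly.snd NPC.Poly.id) (NPC.Poly.length (NPC.Poly.fst NPC.Poly.id)))
      (fun a => min_le_right _ _))

/-- `G` has a dominating set with at most `k` vertices. -/
def HasDominatingSet {V : Type*} (G : SimpleGraph V) (k : ℕ) : Prop :=
  ∃ D : Finset V, D.card ≤ k ∧ ∀ v, v ∉ D → ∃ u ∈ D, G.Adj v u

theorem nbM_iff (M : List (List Bool)) (u v : Fin M.length) :
    nbM M u v = true ↔ Nb (matGraph M) u v := by
  unfold nbM Nb matGraph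
  simp only [Bool.or_eq_true, decide_eq_true_eq, Fin.ext_iff, ne_eq]
  tauto

theorem card_filter_get (l : List ℕ) (p : ℕ → Bool) :
    (Finset.univ.filter (fun t : Fin l.length => p (l.get t) = true)).card =
      (l.filter p).length := by
  rw [Finset.card_filter]
  have h1 : ∀ l : List ℕ, (l.map (fun t => if p t = true then 1 else 0)).sum =
      (l.filter p).length := by
    intro l
    induction l with
    | nil => rfl
    | cons a l ih =>
      rw [List.map_cons, List.sum_cons, ih]
      by_cases h : p a = true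
      · rw [List.filter_cons_of_pos h, List.length_cons, if_pos h]
        omega
      · rw [List.filter_cons_of_neg h, if_neg h]
        omega
  rw [← h1]
  exact Fin.sum_univ_fun_getElem l (fun t => if p t = true then 1 else 0)

theorem alg_correct (M : List (List Bool)) (k : ℕ) (h1 : IsChordal (matGraph M))
    (h2 : BalancedCliques (matGraph M)) :
    alg (M, k) = true ↔ HasDominatingSet (matGraph M) k := by
  classical
  unfold alg
  simp only [Bool.or_eq_true, decide_eq_true_eq]
  constructor
  · rintro (h | h)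
    · exact ⟨Finset.univ, by simpa using h, fun v hv => absurd (Finset.mem_univ v) hv⟩
    · by_cases hkn : M.length ≤ k
      · exact ⟨Finset.univ, by simpa using hkn, fun v hv => absurd (Finset.mem_univ v) hv⟩
      push Not at hkn
      have hn : 0 < M.length := by omega
      rw [min_eq_left hkn.le] at h
      unfold test at h
      rw [List.all_eq_true] at h
      obtain ⟨P, hP⟩ : ∃ P, P = picks (nbM M) M.length k (rounds M.length k) := ⟨_, rfl⟩
      have hlen : P.length = rounds M.length k := by rw [hP, length_picks]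
      have hlt : ∀ t ∈ P, t < M.length := by rw [hP]; exact picks_lt _ hn _ _
      rw [← hP] at h
      obtain ⟨D, hD1, hD2⟩ := small_cover (R := Nb (matGraph M))
        (fun m hm ho u x => nb_balanced h1 h2 hm ho u x) P.length k
        (fun t => ⟨P.get t, hlt _ (List.get_mem _ _)⟩) (by
          intro u
          have h3 := h u.val (List.mem_range.2 u.2)
          rw [decide_eq_true_eq] at h3
          unfold cnt at h3
          rw [← card_filter_get, ← hlen] at h3
          refine lt_of_lt_of_eq h3 ?_
          congr 2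
          ext t
          simp only [Finset.mem_filter, Finset.mem_univ, true_and]
          exact nbM_iff M u ⟨P.get t, hlt _ (List.get_mem _ _)⟩)
      refine ⟨D, hD1, fun v hv => ?_⟩
      obtain ⟨d, hd, hd2⟩ := hD2 v
      rcases hd2 with h4 | h4
      · exact absurd (h4 ▸ hd) hv
      · exact ⟨d, hd, h4⟩
  · rintro ⟨D, hD1, hD2⟩
    by_cases hkn : M.length ≤ k
    · exact Or.inl hkn
    right
    push Not at hkn
    have hn : 0 < M.length := by omega
    rw [min_eq_left hkn.le]
    have hnb : ∀ u : Fin M.length, ∃ d ∈ D, Nb (matGraph M) u d := by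
      intro u
      by_cases hu : u ∈ D
      · exact ⟨u, hu, Or.inl rfl⟩
      · obtain ⟨d, hd, h3⟩ := hD2 u hu
        exact ⟨d, hd, Or.inr h3⟩
    have hk : 1 ≤ k := by
      rw [Nat.one_le_iff_ne_zero]
      rintro rfl
      rw [Nat.le_zero, Finset.card_eq_zero] at hD1
      obtain ⟨d, hd, _⟩ := hnb ⟨0, hn⟩
      rw [hD1] at hd
      simp at hd
    refine test_of_dom hk (D.image Fin.val) (Finset.card_image_le.trans hD1) ?_ ?_ hn
    · intro d hd
      obtain ⟨e, _, rfl⟩ := Finset.mem_image.1 hd
      exact e.2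
    · intro u hu
      obtain ⟨d, hd, h3⟩ := hnb ⟨u, hu⟩
      exact ⟨d.val, Finset.mem_image_of_mem _ hd, (nbM_iff M ⟨u, hu⟩ d).2 h3⟩

/-- Dominating set restricted to balanced chordal graphs is decided in polynomial time. -/
theorem main : ∃ V : List Bool → List Bool, PolyTime V ∧ ∀ (M : List (List Bool)) (k : ℕ),
    IsChordal (matGraph M) → BalancedCliques (matGraph M) →
      (V (bits (M, k)) = [true] ↔ HasDominatingSet (matGraph M) k) := by
  refine ⟨fun x => [(unbits (List (List Bool) × ℕ) x).elim false alg], ?_, ?_⟩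
  · exact polyTime_of_poly (NPC.Poly.optElim (h := fun _ a => alg a) poly_unbits
      (NPC.Poly.const _) (poly_alg.comp (NPC.Poly.snd NPC.Poly.id)))
  · intro M k h1 h2
    rw [← alg_correct M k h1 h2]
    simp only [unbits_bits, Option.elim]
    simp

end Pool.Agent.W989.BC
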