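import Mathlib

/-!
# Chordal graphs and the closed neighbourhood matrix
-/

open SimpleGraph

namespace Pool.Agent.W989.BC

/-- A graph is chordal if it has no induced cycle of length at least `4`. -/
def IsChordal {V : Type*} (G : SimpleGraph V) : Prop :=
  ∀ n, 4 ≤ n → IsEmpty (cycleGraph n ↪g G)

/-- The clique hypergraph of `G` is balanced: for every cycle `x 0, E 0, x 1, E 1, ...` of odd
length `m` in it (distinct vertices `x i`, distinct maximal cliques `E i` with
`x i, x (i + 1) ∈ E i`), some `E i` contains at least three of the vertices `x j`. -/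
def BalancedCliques {V : Type*} (G : SimpleGraph V) : Prop :=
  ∀ m : ℕ, 2 ≤ m → Odd m → ∀ (x : ZMod m → V) (E : ZMod m → Set V), Function.Injective x →
    Function.Injective E → (∀ i, Maximal G.IsClique (E i)) → (∀ i, x i ∈ E i ∧ x (i + 1) ∈ E i) →
    ∃ i, 3 ≤ (E i ∩ Set.range x).ncard

variable {W : Type*}

/-- `H` restricted to `T`, without the edge `ab`. -/
def restr (H : SimpleGraph W) (T : Set W) (a b : W) : SimpleGraph W where
  Adj x y := H.Adj x y ∧ x ∈ T ∧ y ∈ T ∧ ¬ (x = a ∧ y = b) ∧ ¬ (x = b ∧ y = a)
  symm := ⟨fun _ _ h => ⟨h.1.symm, h.2.2.1, h.2.1, fun h' => h.2.2.2.2 ⟨h'.2, h'.1⟩,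
    fun h' => h.2.2.2.1 ⟨h'.2, h'.1⟩⟩⟩
  loopless := ⟨fun x h => H.loopless.irrefl x h.1⟩

/-- In a chordal graph, an edge of a cycle is in a triangle with a third vertex of the cycle. -/
theorem common_nbr {H : SimpleGraph W} (hH : IsChordal H) (T : Set W) {a b : W} (hab : H.Adj a b)
    (hr : (restr H T a b).Reachable b a) :
    ∃ z ∈ T, z ≠ a ∧ z ≠ b ∧ H.Adj a z ∧ H.Adj b z := by
  obtain ⟨p, hp, hl⟩ := hr.exists_path_of_dist
  obtain ⟨d, hd⟩ : ∃ d, d = (restr H T a b).dist b a := ⟨_, rfl⟩
  rw [← hd] at hl
  have hne : a ≠ b := hab.ne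
  have hinj : ∀ i ≤ d, ∀ j ≤ d, p.getVert i = p.getVert j → i = j := by
    intro i hi j hj h
    exact hp.getVert_injOn (by simpa [hl] using hi) (by simpa [hl] using hj) h
  have h0 : p.getVert 0 = b := p.getVert_zero
  have hdd : p.getVert d = a := by rw [← hl]; exact p.getVert_length
  have hstep : ∀ i < d, (restr H T a b).Adj (p.getVert i) (p.getVert (i + 1)) := by
    intro i hi
    exact p.adj_getVert_succ (by omega)
  have hd1 : 2 ≤ d := by
    by_contra hc
    have : d = 0 ∨ d = 1 := by omega
    rcases this with h | h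
    · subst h; rw [h0] at hdd; exact hne hdd.symm
    · subst h
      have h1 := hstep 0 (by omega)
      rw [zero_add, h0, hdd] at h1
      exact h1.2.2.2.2 ⟨rfl, rfl⟩
  have hno : ∀ i j, i + 2 ≤ j → j ≤ d → (i ≠ 0 ∨ j ≠ d) → ¬ H.Adj (p.getVert i) (p.getVert j) := by
    intro i j hij hj h01 hadj
    have hiT : p.getVert i ∈ T := (hstep i (by omega)).2.1
    have hjT : p.getVert j ∈ T := by
      have := (hstep (j - 1) (by omega)).2.2.1
      rwa [Nat.sub_add_cancel (by omega)] at this
    have hadj' : (restr H T a b).Adj (p.getVert i) (p.getVert j) := by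
      refine ⟨hadj, hiT, hjT, ?_, ?_⟩
      · rintro ⟨h1, h2⟩
        have := hinj i (by omega) d le_rfl (by rw [h1, hdd])
        omega
      · rintro ⟨h1, h2⟩
        have e1 := hinj i (by omega) 0 (by omega) (by rw [h1, h0])
        have e2 := hinj j (by omega) d le_rfl (by rw [h2, hdd])
        omega
    have hlt : (restr H T a b).dist b a ≤ i + 1 + (d - j) := by
      have w := (p.take i).append (Walk.cons hadj' (p.drop j))
      have h := dist_le ((p.take i).append (Walk.cons hadj' (p.drop j)))
      simp only [Walk.length_append, Walk.length_cons, Walk.take_length, Walk.drop_length] at h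
      refine h.trans ?_
      rw [hl]
      have : min i d ≤ i := min_le_left _ _
      omega
    omega
  rcases eq_or_lt_of_le hd1 with h2 | h3
  · refine ⟨p.getVert 1, (hstep 0 (by omega)).2.2.1, ?_, ?_, ?_, ?_⟩
    · intro h
      have := hinj 1 (by omega) d le_rfl (by rw [h, hdd])
      omega
    · intro h
      have := hinj 1 (by omega) 0 (by omega) (by rw [h, h0])
      omega
    · have := (hstep 1 (by omega)).1
      rw [show 1 + 1 = d by omega, hdd] at this
      exact this.symm
    · have := (hstep 0 (by omega)).1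
      rwa [h0] at this
  · exfalso
    refine (hH (d + 1) (by omega)).false ⟨⟨fun i => p.getVert i.val, ?_⟩, ?_⟩
    · intro i j h
      exact Fin.ext (hinj _ (by omega) _ (by omega) h)
    · intro i j
      change H.Adj (p.getVert i) (p.getVert j) ↔ _
      rw [cycleGraph_adj']
      have key : ∀ i j : Fin (d + 1), i < j → (H.Adj (p.getVert i) (p.getVert j) ↔
          (i - j).val = 1 ∨ (j - i).val = 1) := by
        intro i j hij
        have hij' : i.val < j.val := hij
        have e1 : (j - i).val = j.val - i.val := by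
          rw [Fin.sub_val_of_le hij.le]
        have e2 : (i - j).val = d + 1 - (j.val - i.val) := by
          rw [Fin.sub_def]
          simp only
          rw [Nat.mod_eq_of_lt (by omega)]
          omega
        rw [e1, e2]
        constructor
        · intro h
          by_contra hc
          push Not at hc
          refine hno i j (by omega) (by omega) ?_ h
          omega
        · intro h
          rcases h with h | h
          · have hi0 : i.val = 0 := by omega
            have hjd : j.val = d := by omega
            rw [hi0, hjd, h0, hdd]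
            exact hab.symm
          · have := (hstep i (by omega)).1
            rwa [show i.val + 1 = j.val by omega] at this
      rcases lt_trichotomy i j with h | h | h
      · exact key i j h
      · subst h
        simp
      · rw [H.adj_comm, key j i h, or_comm]

/-- A special cycle of length `m` in a relation. -/
def SpecCyc {α β : Type*} (R : α → β → Prop) (m : ℕ) (u : ZMod m → α) (x : ZMod m → β) : Prop :=
  ∀ i j, R (u i) (x j) ↔ (j = i ∨ j = i + 1)

section
variable {H : SimpleGraph W} {m : ℕ} {p q : ZMod m → W}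

theorem three {m : ℕ} (hm : 3 ≤ m) : (1 : ZMod m) ≠ 0 ∧ (2 : ZMod m) ≠ 0 := by
  constructor
  · intro h
    have := (ZMod.natCast_eq_zero_iff 1 m).1 (by exact_mod_cast h)
    have := Nat.le_of_dvd (by norm_num) this
    omega
  · intro h
    have := (ZMod.natCast_eq_zero_iff 2 m).1 (by exact_mod_cast h)
    have := Nat.le_of_dvd (by norm_num) this
    omega

theorem SpecCyc.symm {α β : Type*} {R : α → β → Prop} {m : ℕ} {u : ZMod m → α} {x : ZMod m → β}
    (h : SpecCyc R m u x) : SpecCyc (fun a b => R b a) m x (fun i => u (i - 1)) := by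
  intro i j
  change R (u (j - 1)) (x i) ↔ _
  rw [h (j - 1) i]
  constructor
  · rintro (h | h)
    · right; rw [h]; ring
    · left; rw [h]; ring
  · rintro (h | h)
    · right; rw [h]; ring
    · left; rw [h]; ring

/-- If some `p a` has a neighbour among the `p b`, then `p (a + 1)` is a neighbour. -/
theorem next_adj (hH : IsChordal H) (hm : 3 ≤ m) (hpi : Function.Injective p)
    (hpq : ∀ i j, p i ≠ q j) (hs : SpecCyc H.Adj m p q) {a b : ZMod m} (hab : a ≠ b)
    (h : H.Adj (p a) (p b)) : H.Adj (p a) (p (a + 1)) := by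
  have : NeZero m := ⟨by omega⟩
  obtain ⟨h1, h2⟩ := three hm
  have hqa : ∀ i, q i ≠ p a := fun i h => hpq a i h.symm
  let T : Set W := Set.range p ∪ q '' {j | j ≠ a}
  have hpT : ∀ j, p j ∈ T := fun j => Or.inl ⟨j, rfl⟩
  have hqT : ∀ j, j ≠ a → q j ∈ T := fun j hj => Or.inr ⟨j, hj, rfl⟩
  have hadj : H.Adj (p a) (q (a + 1)) := (hs a (a + 1)).2 (Or.inr rfl)
  have hr0 : ∀ t : ℕ, 1 ≤ t → t < m →
      (restr H T (p a) (q (a + 1))).Reachable (q (a + 1)) (p (a + t)) := by
    intro t ht
    induction t, ht using Nat.le_induction with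
    | base =>
      intro _
      refine Adj.reachable ⟨?_, hqT _ (by simpa using h1), hpT _, ?_, ?_⟩
      · rw [H.adj_comm, hs]; left; push_cast; rfl
      · rintro ⟨h, _⟩; exact hqa _ h
      · rintro ⟨_, h⟩
        have := hpi h
        simp [h1] at this
    | succ t ht ih =>
      intro htm
      have ih' := ih (by omega)
      have hcast : ((t + 1 : ℕ) : ZMod m) ≠ 0 := by
        intro h
        have := Nat.le_of_dvd (by omega) ((ZMod.natCast_eq_zero_iff _ m).1 h)
        omega
      have hcast' : ((t : ℕ) : ZMod m) ≠ 0 := by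
        intro h
        have := Nat.le_of_dvd (by omega) ((ZMod.natCast_eq_zero_iff _ m).1 h)
        omega
      have hq' : q (a + (t + 1 : ℕ)) ∈ T := hqT _ (by simpa using hcast)
      have a1 : (restr H T (p a) (q (a + 1))).Adj (p (a + t)) (q (a + (t + 1 : ℕ))) := by
        refine ⟨?_, hpT _, hq', ?_, ?_⟩
        · rw [hs]; right; push_cast; ring
        · rintro ⟨h, _⟩
          have := hpi h
          simp [hcast'] at this
        · rintro ⟨h, _⟩; exact hpq _ _ h
      have a2 : (restr H T (p a) (q (a + 1))).Adj (q (a + (t + 1 : ℕ))) (p (a + (t + 1 : ℕ))) := by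
        refine ⟨?_, hq', hpT _, ?_, ?_⟩
        · rw [H.adj_comm, hs]; left; rfl
        · rintro ⟨h, _⟩; exact hqa _ h
        · rintro ⟨_, h⟩
          have := hpi h
          rw [add_eq_left] at this
          exact hcast this
      exact (ih'.trans a1.reachable).trans a2.reachable
  have hrb : (restr H T (p a) (q (a + 1))).Reachable (q (a + 1)) (p b) := by
    have h3 := hr0 (b - a).val ?_ (ZMod.val_lt _)
    · rwa [ZMod.natCast_val, ZMod.cast_id', id, add_sub_cancel] at h3
    · rw [Nat.one_le_iff_ne_zero]
      intro h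
      rw [ZMod.val_eq_zero] at h
      exact hab (sub_eq_zero.1 h).symm
  have a3 : (restr H T (p a) (q (a + 1))).Adj (p b) (p a) := by
    refine ⟨h.symm, hpT _, hpT _, ?_, ?_⟩
    · rintro ⟨h, _⟩; exact hab (hpi h).symm
    · rintro ⟨h, _⟩; exact hpq _ _ h
  obtain ⟨z, hz, hza, hzb, z1, z2⟩ := common_nbr hH T hadj (hrb.trans a3.reachable)
  rcases hz with ⟨j, rfl⟩ | ⟨j, hj, rfl⟩
  · rw [H.adj_comm, hs] at z2
    rcases z2 with h | h
    · rwa [h]
    · exfalso
      exact hza (congrArg p (add_right_cancel h).symm)
  · rw [hs] at z1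
    rcases z1 with h | h
    · exact absurd h hj
    · exact absurd (congrArg q h) hzb

/-- All consecutive `p`s are adjacent, or all consecutive `q`s are. -/
theorem all_adj (hH : IsChordal H) (hm : 3 ≤ m) (hpi : Function.Injective p)
    (hqi : Function.Injective q) (hpq : ∀ i j, p i ≠ q j) (hs : SpecCyc H.Adj m p q) :
    (∀ i, H.Adj (p i) (p (i + 1))) ∨ (∀ i, H.Adj (q i) (q (i + 1))) := by
  have : NeZero m := ⟨by omega⟩
  obtain ⟨h1, h2⟩ := three hm
  have from_one : ∀ {p q : ZMod m → W}, Function.Injective p → (∀ i j, p i ≠ q j) →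
      SpecCyc H.Adj m p q → ∀ {a b : ZMod m}, a ≠ b → H.Adj (p a) (p b) →
      ∀ i, H.Adj (p i) (p (i + 1)) := by
    intro p q hpi hpq hs a b hab h
    have h3 : ∀ t : ℕ, H.Adj (p (a + t)) (p (a + t + 1)) := by
      intro t
      induction t with
      | zero => simpa using next_adj hH hm hpi hpq hs hab h
      | succ t ih =>
        have := next_adj hH hm hpi hpq hs (a := a + t + 1) (b := a + t) ?_ ih.symm
        · have e : a + ((t + 1 : ℕ) : ZMod m) = a + t + 1 := by push_cast; ring
          rw [e]; exact this
        · intro h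
          rw [add_eq_left] at h
          exact h1 h
    intro i
    have h4 := h3 (i - a).val
    rwa [ZMod.natCast_val, ZMod.cast_id', id, add_sub_cancel] at h4
  -- find one adjacency
  have hadj : H.Adj (p 0) (q 1) := (hs 0 1).2 (Or.inr (by ring))
  let T : Set W := Set.range p ∪ Set.range q
  have hpT : ∀ j, p j ∈ T := fun j => Or.inl ⟨j, rfl⟩
  have hqT : ∀ j, q j ∈ T := fun j => Or.inr ⟨j, rfl⟩
  have hr0 : ∀ t : ℕ, 1 ≤ t → t < m → (restr H T (p 0) (q 1)).Reachable (q 1) (p t) := by
    intro t ht
    induction t, ht using Nat.le_induction with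
    | base =>
      intro _
      refine Adj.reachable ⟨?_, hqT _, hpT _, ?_, ?_⟩
      · rw [H.adj_comm, hs]; left; push_cast; rfl
      · rintro ⟨h, _⟩; exact hpq _ _ h.symm
      · rintro ⟨_, h⟩
        have := hpi h
        push_cast at this
        exact h1 this
    | succ t ht ih =>
      intro htm
      have ih' := ih (by omega)
      have hcast' : ((t : ℕ) : ZMod m) ≠ 0 := by
        intro h
        have := Nat.le_of_dvd (by omega) ((ZMod.natCast_eq_zero_iff _ m).1 h)
        omega
      have hcast : ((t + 1 : ℕ) : ZMod m) ≠ 0 := by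
        intro h
        have := Nat.le_of_dvd (by omega) ((ZMod.natCast_eq_zero_iff _ m).1 h)
        omega
      have a1 : (restr H T (p 0) (q 1)).Adj (p t) (q (t + 1 : ℕ)) := by
        refine ⟨?_, hpT _, hqT _, ?_, ?_⟩
        · rw [hs]; right; push_cast; ring
        · rintro ⟨h, _⟩; exact hcast' (hpi h)
        · rintro ⟨h, _⟩; exact hpq _ _ h
      have a2 : (restr H T (p 0) (q 1)).Adj (q (t + 1 : ℕ)) (p (t + 1 : ℕ)) := by
        refine ⟨?_, hqT _, hpT _, ?_, ?_⟩
        · rw [H.adj_comm, hs]; left; rfl
        · rintro ⟨h, _⟩; exact hpq _ _ h.symm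
        · rintro ⟨_, h⟩; exact hcast (hpi h)
      exact (ih'.trans a1.reachable).trans a2.reachable
  have hm1 : (restr H T (p 0) (q 1)).Reachable (q 1) (p 0) := by
    have h3 := hr0 (m - 1) (by omega) (by omega)
    have e : ((m - 1 : ℕ) : ZMod m) = -1 := by
      rw [Nat.cast_sub (by omega)]; simp
    rw [e] at h3
    have n1 : (-1 : ZMod m) ≠ 0 := by simpa using h1
    have a1 : (restr H T (p 0) (q 1)).Adj (p (-1)) (q 0) := by
      refine ⟨?_, hpT _, hqT _, ?_, ?_⟩
      · rw [hs]; right; ring
      · rintro ⟨h, _⟩; exact n1 (hpi h)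
      · rintro ⟨h, _⟩; exact hpq _ _ h
    have a2 : (restr H T (p 0) (q 1)).Adj (q 0) (p 0) := by
      refine ⟨?_, hqT _, hpT _, ?_, ?_⟩
      · rw [H.adj_comm, hs]; left; rfl
      · rintro ⟨h, _⟩; exact hpq _ _ h.symm
      · rintro ⟨h, _⟩; exact h1 (hqi h).symm
    exact (h3.trans a1.reachable).trans a2.reachable
  obtain ⟨z, hz, hza, hzb, z1, z2⟩ := common_nbr hH T hadj hm1
  rcases hz with ⟨j, rfl⟩ | ⟨j, rfl⟩
  · left
    refine from_one hpi hpq hs (a := 0) (b := j) ?_ z1
    rintro rfl; exact hza rfl
  · right
    have hs' := hs.symm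
    refine from_one (p := q) (q := fun i => p (i - 1)) hqi (fun i j h => hpq _ _ h.symm) ?_
      (a := 1) (b := j) ?_ z2
    · intro i j
      rw [H.adj_comm]
      exact hs' i j
    · rintro rfl; exact hzb rfl

end

/-- The graph in which every vertex is doubled (the two copies are adjacent). -/
def twin {V : Type*} (G : SimpleGraph V) : SimpleGraph (V × Bool) where
  Adj x y := x ≠ y ∧ (x.1 = y.1 ∨ G.Adj x.1 y.1)
  symm := ⟨fun _ _ h => ⟨h.1.symm, h.2.imp Eq.symm (fun h => h.symm)⟩⟩
  loopless := ⟨fun _ h => h.1 rfl⟩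

theorem chordal_twin {V : Type*} {G : SimpleGraph V} (hG : IsChordal G) : IsChordal (twin G) := by
  intro n hn
  constructor
  intro e
  obtain ⟨k, rfl⟩ : ∃ k, n = k + 2 := ⟨n - 2, by omega⟩
  have hval1 : (1 : Fin (k + 2)).val = 1 := rfl
  have hinj : ∀ i j, (e i).1 = (e j).1 → i = j := by
    intro i j h
    by_contra hij
    have hne : e i ≠ e j := fun h => hij (e.injective h)
    have hadj : (cycleGraph (k + 2)).Adj i j := by
      rw [← e.map_adj_iff]
      exact ⟨hne, Or.inl h⟩
    -- a neighbour of `i` which is neither `j` nor a neighbour of `j`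
    have hl : ∃ l, (cycleGraph (k + 2)).Adj l i ∧ l ≠ j ∧ ¬ (cycleGraph (k + 2)).Adj l j := by
      have h1 : (1 : Fin (k + 2)) ≠ 0 := by simp
      have h2 : (1 + 1 : Fin (k + 2)) ≠ 0 := by
        intro h
        have := congrArg Fin.val h
        rw [Fin.val_add, hval1, Nat.mod_eq_of_lt (by omega)] at this
        simp at this
      have h3 : (1 + 1 + 1 : Fin (k + 2)) ≠ 0 := by
        intro h
        have := congrArg Fin.val h
        rw [Fin.val_add, Fin.val_add, hval1, Nat.mod_eq_of_lt (a := 1 + 1) (by omega),
          Nat.mod_eq_of_lt (by omega)] at this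
        simp at this
      rw [cycleGraph_adj] at hadj
      rcases hadj with h | h
      · refine ⟨i + 1, ?_, ?_, ?_⟩
        · rw [cycleGraph_adj]; left; abel
        · intro h'
          apply h2
          have : j = i - 1 := by rw [← h]; abel
          rw [this] at h'
          have h4 : i + 1 - (i - 1) = 0 := by rw [h']; abel
          rw [← h4]; abel
        · rw [cycleGraph_adj]
          have : j = i - 1 := by rw [← h]; abel
          rw [this]
          rintro (h' | h')
          · apply h1
            have h4 : i + 1 - (i - 1) = 1 + 1 := by abel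
            rw [h4] at h'
            exact add_eq_left.1 h'
          · apply h3
            have h4 : i - 1 - (i + 1) = - (1 + 1) := by abel
            rw [h4] at h'
            calc (1 + 1 + 1 : Fin (k + 2)) = (1 + 1) + -(1 + 1) := by rw [h']
              _ = 0 := add_neg_cancel _
      · refine ⟨i - 1, ?_, ?_, ?_⟩
        · rw [cycleGraph_adj]; right; abel
        · intro h'
          apply h2
          have : j = i + 1 := by rw [← h]; abel
          rw [this] at h'
          have h4 : i + 1 - (i - 1) = 0 := by rw [h']; abel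
          rw [← h4]; abel
        · rw [cycleGraph_adj]
          have : j = i + 1 := by rw [← h]; abel
          rw [this]
          rintro (h' | h')
          · apply h3
            have h4 : i - 1 - (i + 1) = - (1 + 1) := by abel
            rw [h4] at h'
            calc (1 + 1 + 1 : Fin (k + 2)) = (1 + 1) + -(1 + 1) := by rw [h']
              _ = 0 := add_neg_cancel _
          · apply h1
            have h4 : i + 1 - (i - 1) = 1 + 1 := by abel
            rw [h4] at h'
            exact add_eq_left.1 h'
    obtain ⟨l, l1, l2, l3⟩ := hl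
    rw [← e.map_adj_iff] at l1 l3
    apply l3
    refine ⟨fun h => l2 (e.injective h), ?_⟩
    rw [← h]
    exact l1.2
  refine (hG (k + 2) hn).false ⟨⟨fun i => (e i).1, ?_⟩, ?_⟩
  · intro i j h
    exact hinj i j h
  intro i j
  change G.Adj (e i).1 (e j).1 ↔ _
  rw [← e.map_adj_iff]
  constructor
  · intro h
    exact ⟨fun h' => h.ne (congrArg Prod.fst h'), Or.inr h⟩
  · rintro ⟨h1, h2 | h2⟩
    · exact absurd (congrArg e (hinj i j h2)) h1
    · exact h2

/-- The closed neighbourhood relation. -/
def Nb {V : Type*} (G : SimpleGraph V) (u x : V) : Prop := u = x ∨ G.Adj u x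

theorem spec_injective {α β : Type*} {R : α → β → Prop} {m : ℕ} (hm : 3 ≤ m) {u : ZMod m → α}
    {x : ZMod m → β} (h : SpecCyc R m u x) : Function.Injective u := by
  obtain ⟨h1, h2⟩ := three hm
  intro i j hij
  have a1 := (h i i).2 (Or.inl rfl)
  have a2 := (h i (i + 1)).2 (Or.inr rfl)
  rw [hij, h] at a1 a2
  rcases a1 with a1 | a1
  · exact a1
  · rcases a2 with a2 | a2
    · exfalso
      rw [a1, add_assoc, add_eq_left] at a2
      exact h2 (by rw [← a2]; norm_num)
    · exact add_right_cancel a2

theorem no_clique_cycle {V : Type*} {G : SimpleGraph V} (hB : BalancedCliques G) {m : ℕ}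
    (hm : 3 ≤ m) (hodd : Odd m) {u x : ZMod m → V} (hs : SpecCyc (Nb G) m u x)
    (hadj : ∀ i, G.Adj (u i) (u (i + 1))) : False := by
  have : NeZero m := ⟨by omega⟩
  obtain ⟨h1, h2⟩ := three hm
  have hui := spec_injective hm hs
  have hcl : ∀ i, ∃ M : Set V, Maximal G.IsClique M ∧ ({x (i + 1), u i, u (i + 1)} : Set V) ⊆ M := by
    intro i
    have hc : G.IsClique ({x (i + 1), u i, u (i + 1)} : Set V) := by
      have a1 := (hs i (i + 1)).2 (Or.inr rfl)
      have a2 := (hs (i + 1) (i + 1)).2 (Or.inl rfl)
      have a3 := hadj i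
      intro a ha b hb hab
      simp only [Set.mem_insert_iff, Set.mem_singleton_iff] at ha hb
      unfold Nb at a1 a2
      rcases ha with rfl | rfl | rfl <;> rcases hb with rfl | rfl | rfl
      · exact absurd rfl hab
      · rcases a1 with h | h
        · exact absurd h.symm hab
        · exact h.symm
      · rcases a2 with h | h
        · exact absurd h.symm hab
        · exact h.symm
      · rcases a1 with h | h
        · exact absurd h hab
        · exact h
      · exact absurd rfl hab
      · exact a3
      · rcases a2 with h | h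
        · exact absurd h hab
        · exact h
      · exact a3.symm
      · exact absurd rfl hab
    have hz : ∀ c ⊆ {S : Set V | G.IsClique S}, IsChain (· ⊆ ·) c → c.Nonempty →
        ∃ ub ∈ {S : Set V | G.IsClique S}, ∀ s ∈ c, s ⊆ ub := by
      intro c hc hchain hne
      refine ⟨⋃₀ c, ?_, fun s hs => Set.subset_sUnion_of_mem hs⟩
      intro a ha b hb hab
      obtain ⟨s, hs, has⟩ := ha
      obtain ⟨t, ht, hbt⟩ := hb
      rcases hchain.total hs ht with h | h
      · exact hc ht (h has) hbt hab
      · exact hc hs has (h hbt) hab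
    obtain ⟨M, hM, hM'⟩ := zorn_subset_nonempty {S : Set V | G.IsClique S} hz _ hc
    exact ⟨M, hM', hM⟩
  choose M hM hsub using hcl
  have hmem : ∀ i j, u j ∈ M i ↔ (j = i ∨ j = i + 1) := by
    intro i j
    constructor
    · intro hj
      have hx : x (i + 1) ∈ M i := hsub i (by simp)
      have hN : Nb G (u j) (x (i + 1)) := by
        by_cases h : u j = x (i + 1)
        · exact Or.inl h
        · exact Or.inr ((hM i).prop hj hx h)
      rw [hs] at hN
      rcases hN with h | h
      · exact Or.inr h.symm
      · exact Or.inl (add_right_cancel h).symm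
    · rintro (rfl | rfl)
      · exact hsub _ (by simp)
      · exact hsub _ (by simp)
  have hMi : Function.Injective M := by
    intro i j hij
    have a1 := (hmem i i).2 (Or.inl rfl)
    have a2 := (hmem i (i + 1)).2 (Or.inr rfl)
    rw [hij, hmem] at a1 a2
    rcases a1 with a1 | a1
    · exact a1
    · rcases a2 with a2 | a2
      · exfalso
        rw [a1, add_assoc, add_eq_left] at a2
        exact h2 (by rw [← a2]; norm_num)
      · exact add_right_cancel a2
  obtain ⟨i, hi⟩ := hB m (by omega) hodd u M hui hMi hM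
    (fun i => ⟨(hmem i i).2 (Or.inl rfl), (hmem i (i + 1)).2 (Or.inr rfl)⟩)
  have hle : (M i ∩ Set.range u) ⊆ {u i, u (i + 1)} := by
    rintro _ ⟨hj, ⟨j, rfl⟩⟩
    rw [hmem] at hj
    rcases hj with rfl | rfl <;> simp
  have h3 := Set.ncard_le_ncard hle (Set.toFinite _)
  have h4 := Set.ncard_insert_le (u i) {u (i + 1)}
  rw [Set.ncard_singleton] at h4
  omega

/-- **The closed neighbourhood matrix of a balanced chordal graph is balanced.** -/
theorem nb_balanced {V : Type*} {G : SimpleGraph V} (hG : IsChordal G) (hB : BalancedCliques G)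
    {m : ℕ} (hm : 3 ≤ m) (hodd : Odd m) (u x : ZMod m → V) : ¬ SpecCyc (Nb G) m u x := by
  intro hs
  have hui := spec_injective hm hs
  have hs' : SpecCyc (Nb G) m x (fun i => u (i - 1)) := by
    intro i j
    have := hs.symm i j
    rw [← this]
    unfold Nb
    rw [G.adj_comm, eq_comm]
  have hxi := spec_injective hm hs'
  have h := all_adj (H := twin G) (p := fun i => (u i, false)) (q := fun i => (x i, true))
    (chordal_twin hG) hm (fun i j h => hui (congrArg Prod.fst h))
    (fun i j h => hxi (congrArg Prod.fst h)) (fun i j h => by simp at h) ?_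
  · rcases h with h | h
    · refine no_clique_cycle hB hm hodd hs fun i => ?_
      obtain ⟨h1, h2 | h2⟩ := h i
      · exfalso
        have := hui h2
        obtain ⟨h3, _⟩ := three hm
        simp [h3] at this
      · exact h2
    · refine no_clique_cycle hB hm hodd hs' fun i => ?_
      obtain ⟨h1, h2 | h2⟩ := h i
      · exfalso
        have := hxi h2
        obtain ⟨h3, _⟩ := three hm
        simp [h3] at this
      · exact h2
  · intro i j
    rw [← hs i j]
    unfold Nb twin
    simp

end Pool.Agent.W989.BC
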