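import Pool.Agent.W989.BC.Chord

/-!
# Good colourings of balanced hypergraphs
-/

open SimpleGraph

namespace Pool.Agent.W989.BC

variable {α β : Type*}

/-- A relation is balanced: it has no special cycle of odd length at least three. -/
def NoSpec (R : α → β → Prop) : Prop :=
  ∀ m, 3 ≤ m → Odd m → ∀ (u : ZMod m → α) (x : ZMod m → β), ¬ SpecCyc R m u x

section bicolor
open Classical

/-- The graph of the rows with exactly two elements in `B`. -/
def twoGraph (R : α → β → Prop) (B : Finset β) : SimpleGraph β where
  Adj y z := y ≠ z ∧ ∃ a, ∀ w, (w ∈ B ∧ R a w) ↔ (w = y ∨ w = z)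
  symm := ⟨fun _ _ h => ⟨h.1.symm, h.2.imp fun _ h' w => (h' w).trans or_comm⟩⟩
  loopless := ⟨fun _ h => h.1 rfl⟩

theorem twoGraph_mem {R : α → β → Prop} {B : Finset β} {y z : β} (h : (twoGraph R B).Adj y z) :
    y ∈ B := by
  obtain ⟨_, a, ha⟩ := h
  exact ((ha y).2 (Or.inl rfl)).1

/-- An odd cycle in the graph of the two-element rows. -/
theorem no_odd {R : α → β → Prop} (h : NoSpec R) {B : Finset β} {m : ℕ} (hm : 3 ≤ m) (ho : Odd m)
    (x : ZMod m → β) (hx : Function.Injective x)
    (hadj : ∀ i, (twoGraph R B).Adj (x i) (x (i + 1))) : False := by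
  choose hne a ha using hadj
  refine h m hm ho a x fun i j => ?_
  have hj : x j ∈ B := ((ha j (x j)).2 (Or.inl rfl)).1
  have := ha i (x j)
  constructor
  · intro h1
    rcases this.1 ⟨hj, h1⟩ with h2 | h2
    · exact Or.inl (hx h2)
    · exact Or.inr (hx h2)
  · rintro (h2 | h2)
    · exact (this.2 (Or.inl (congrArg x h2))).2
    · exact (this.2 (Or.inr (congrArg x h2))).2

theorem no_odd_path {R : α → β → Prop} (h : NoSpec R) {B : Finset β} {x y z : β}
    (hy : (twoGraph R B).Adj x y) (hz : (twoGraph R B).Adj x z) (P : (twoGraph R B).Walk y z)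
    (hP : P.IsPath) (hx : x ∉ P.support) (hodd : Odd P.length) : False := by
  obtain ⟨l, hl⟩ : ∃ l, l = P.length := ⟨_, rfl⟩
  rw [← hl] at hodd
  have hl1 : 1 ≤ l := hodd.pos
  let c : ℕ → β := fun i => if i = 0 then x else P.getVert (i - 1)
  have hcinj : ∀ i < l + 2, ∀ j < l + 2, c i = c j → i = j := by
    intro i hi j hj hij
    have hxP : ∀ k, x ≠ P.getVert k := fun k hk => hx (by rw [hk]; exact P.getVert_mem_support k)
    by_cases hi0 : i = 0
    · by_cases hj0 : j = 0
      · omega
      · simp only [c, hi0, hj0, if_true, if_false] at hij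
        exact absurd hij (hxP _)
    · by_cases hj0 : j = 0
      · simp only [c, hi0, hj0, if_true, if_false] at hij
        exact absurd hij.symm (hxP _)
      · simp only [c, hi0, hj0, if_false] at hij
        have := hP.getVert_injOn (x₁ := i - 1) (x₂ := j - 1) (by simp; omega) (by simp; omega) hij
        omega
  have hcadj : ∀ i < l + 1, (twoGraph R B).Adj (c i) (c (i + 1)) := by
    intro i hi
    by_cases hi0 : i = 0
    · subst hi0
      simpa [c] using hy
    · simp only [c, hi0, if_false, Nat.add_eq_zero_iff, one_ne_zero, and_false]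
      have := P.adj_getVert_succ (i := i - 1) (by omega)
      rwa [show i - 1 + 1 = i + 1 - 1 by omega] at this
  have hclast : (twoGraph R B).Adj (c (l + 1)) (c 0) := by
    simp only [c, Nat.add_eq_zero_iff, one_ne_zero, and_false, if_false, if_true,
      Nat.add_sub_cancel, hl, Walk.getVert_length]
    exact hz.symm
  have : NeZero (l + 2) := ⟨by omega⟩
  refine no_odd h (m := l + 2) (B := B) (by omega) ?_ (fun i => c i.val) ?_ ?_
  · obtain ⟨k, hk⟩ := hodd
    exact ⟨k + 1, by omega⟩
  · intro i j hij
    exact ZMod.val_injective _ (hcinj _ (ZMod.val_lt i) _ (ZMod.val_lt j) hij)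
  · intro i
    have hi := ZMod.val_lt i
    have h1 : (1 : ZMod (l + 2)).val = 1 := ZMod.val_one'' (by omega)
    have h2 : (i + 1).val = (i.val + 1) % (l + 2) := by rw [ZMod.val_add, h1]
    change (twoGraph R B).Adj (c i.val) (c (i + 1).val)
    by_cases hlt : i.val < l + 1
    · rw [h2, Nat.mod_eq_of_lt (by omega)]
      exact hcadj _ hlt
    · have : i.val = l + 1 := by omega
      rw [h2, this, Nat.mod_self]
      exact hclast

theorem alternate {Q : SimpleGraph β} {x : β} {f : β → Bool}
    (hf : ∀ y z, Q.Adj y z → y ≠ x → z ≠ x → f y ≠ f z) {y z : β} (P : Q.Walk y z)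
    (hx : x ∉ P.support) : (f y = f z ↔ Even P.length) := by
  induction P with
  | nil => simp
  | @cons u v w h P ih =>
    rw [Walk.support_cons, List.mem_cons, not_or] at hx
    have ih := ih hx.2
    have hne := hf u v h (fun h' => hx.1 h'.symm)
      (fun h' => hx.2 (by rw [← h']; exact P.start_mem_support))
    rw [Walk.length_cons, Nat.even_add_one, ← ih]
    revert hne
    cases f u <;> cases f v <;> cases f w <;> simp

/-- **Bicolourings of balanced hypergraphs** (Berge). -/
theorem bicolor {R : α → β → Prop} (h : NoSpec R) (B : Finset β) :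
    ∃ f : β → Bool, ∀ a, 2 ≤ (B.filter (R a)).card → ∀ b, ∃ x ∈ B, R a x ∧ f x = b := by
  induction B using Finset.strongInduction with
  | H B ih =>
    by_contra hno
    push Not at hno
    -- every vertex has neighbours of both colours
    have key : ∀ x ∈ B, ∃ f : β → Bool,
        (∀ y z, (twoGraph R B).Adj y z → y ≠ x → z ≠ x → f y ≠ f z) ∧
        ∀ b, ∃ y, (twoGraph R B).Adj x y ∧ f y = b := by
      intro x hx
      obtain ⟨f, hf⟩ := ih (B.erase x) (Finset.erase_ssubset hx)
      refine ⟨f, ?_, ?_⟩
      · rintro y z ⟨hyz, a, ha⟩ hyx hzx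
        have e : (B.erase x).filter (R a) = {y, z} := by
          ext w
          simp only [Finset.mem_filter, Finset.mem_erase, Finset.mem_insert, Finset.mem_singleton]
          rw [← ha w]
          constructor
          · rintro ⟨⟨_, h1⟩, h2⟩; exact ⟨h1, h2⟩
          · rintro ⟨h1, h2⟩
            refine ⟨⟨?_, h1⟩, h2⟩
            rintro rfl
            rcases (ha w).1 ⟨h1, h2⟩ with h | h
            · exact hyx h.symm
            · exact hzx h.symm
        have hc := hf a (by rw [e, Finset.card_pair hyz])
        intro hfe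
        obtain ⟨w, hw, hw1, hw2⟩ := hc (!(f y))
        have : w ∈ (B.erase x).filter (R a) := Finset.mem_filter.2 ⟨hw, hw1⟩
        rw [e, Finset.mem_insert, Finset.mem_singleton] at this
        rcases this with rfl | rfl
        · cases hh : f w <;> simp [hh] at hw2
        · rw [hfe] at hw2
          cases hh : f w <;> simp [hh] at hw2
      · intro b
        obtain ⟨a, ha, b', hb'⟩ := hno (Function.update f x b)
        have hcard : ((B.erase x).filter (R a)).card ≤ 1 := by
          by_contra hc
          push Not at hc
          obtain ⟨w, hw, hw1, hw2⟩ := hf a hc b'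
          refine hb' w (Finset.mem_of_mem_erase hw) hw1 ?_
          rw [Function.update_of_ne (Finset.ne_of_mem_erase hw)]
          exact hw2
        have hRx : R a x := by
          by_contra hRx
          have : B.filter (R a) = (B.erase x).filter (R a) := by
            ext w
            simp only [Finset.mem_filter, Finset.mem_erase]
            constructor
            · rintro ⟨h1, h2⟩
              exact ⟨⟨fun h => hRx (h ▸ h2), h1⟩, h2⟩
            · rintro ⟨⟨_, h1⟩, h2⟩; exact ⟨h1, h2⟩
          rw [this] at ha
          omega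
        have he : B.filter (R a) = insert x ((B.erase x).filter (R a)) := by
          ext w
          simp only [Finset.mem_filter, Finset.mem_insert, Finset.mem_erase]
          constructor
          · rintro ⟨h1, h2⟩
            by_cases hwx : w = x
            · exact Or.inl hwx
            · exact Or.inr ⟨⟨hwx, h1⟩, h2⟩
          · rintro (rfl | ⟨⟨_, h1⟩, h2⟩)
            · exact ⟨hx, hRx⟩
            · exact ⟨h1, h2⟩
        have hcard1 : ((B.erase x).filter (R a)).card = 1 := by
          have := Finset.card_insert_le x ((B.erase x).filter (R a))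
          rw [← he] at this
          omega
        obtain ⟨y, hy⟩ := Finset.card_eq_one.1 hcard1
        have hyx : y ≠ x := by
          have : y ∈ (B.erase x).filter (R a) := by rw [hy]; simp
          exact Finset.ne_of_mem_erase (Finset.mem_filter.1 this).1
        have hspec : ∀ w, (w ∈ B ∧ R a w) ↔ (w = x ∨ w = y) := by
          intro w
          rw [← Finset.mem_filter, he, hy, Finset.mem_insert, Finset.mem_singleton]
        refine ⟨y, ⟨hyx.symm, a, hspec⟩, ?_⟩
        -- the colour
        by_contra hfy
        have hyB := (hspec y).2 (Or.inr rfl)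
        rcases Bool.eq_or_eq_not b' b with hbb | hbb
        · exact hb' x hx hRx (by rw [Function.update_self, hbb])
        · refine hb' y hyB.1 hyB.2 ?_
          rw [Function.update_of_ne hyx, hbb]
          cases hh : f y <;> cases b <;> simp_all
    -- `B` is nonempty
    obtain ⟨r, hr⟩ : B.Nonempty := by
      rw [Finset.nonempty_iff_ne_empty]
      rintro rfl
      obtain ⟨a, ha, _⟩ := hno (fun _ => true)
      simp at ha
    obtain ⟨x, hx, hmax⟩ := Finset.exists_max_image
      (B.filter (fun x => (twoGraph R B).Reachable r x)) (fun x => (twoGraph R B).dist r x)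
      ⟨r, by simp [hr]⟩
    rw [Finset.mem_filter] at hx
    obtain ⟨f, hf1, hf2⟩ := key x hx.1
    obtain ⟨y, hy, hfy⟩ := hf2 true
    obtain ⟨z, hz, hfz⟩ := hf2 false
    have avoid : ∀ y, (twoGraph R B).Adj x y → ∃ p : (twoGraph R B).Walk r y, x ∉ p.support := by
      intro y hy
      have hry : (twoGraph R B).Reachable r y := hx.2.trans hy.reachable
      obtain ⟨p, hp⟩ := hry.exists_walk_length_eq_dist
      refine ⟨p, fun hxp => ?_⟩
      have h1 := Walk.length_takeUntil_lt_length hxp hy.ne
      have h2 := dist_le (p.takeUntil x hxp)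
      have h3 := hmax y (Finset.mem_filter.2 ⟨twoGraph_mem hy.symm, hry⟩)
      omega
    obtain ⟨p1, hp1⟩ := avoid y hy
    obtain ⟨p2, hp2⟩ := avoid z hz
    obtain ⟨P, hP⟩ : ∃ P : (twoGraph R B).Walk y z, P = p1.reverse.append p2 := ⟨_, rfl⟩
    have hxP : x ∉ P.bypass.support := by
      intro hc
      have := Walk.support_bypass_subset_support P hc
      rw [hP, Walk.mem_support_append_iff, Walk.support_reverse, List.mem_reverse] at this
      rcases this with h | h
      · exact hp1 h
      · exact hp2 h
    refine no_odd_path h hy hz P.bypass (Walk.bypass_isPath P) hxP ?_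
    rw [← Nat.not_even_iff_odd, ← alternate hf1 P.bypass hxP, hfy, hfz]
    simp

end bicolor

section qcolor
open Classical

/-- Does row `a` contain colour `d`? -/
noncomputable def ind (R : α → β → Prop) (q : ℕ) (f : β → Fin q) (a : α) (d : Fin q) : ℕ :=
  if ∃ x, R a x ∧ f x = d then 1 else 0

/-- **Good `q`-colourings of balanced hypergraphs** (Berge): every row with at least `q` elements
contains all colours. -/
theorem qcolor [Fintype α] [Fintype β] {R : α → β → Prop} (h : NoSpec R) (q : ℕ) (hq : 1 ≤ q) :
    ∃ f : β → Fin q, ∀ a, q ≤ (Finset.univ.filter (R a)).card → ∀ c, ∃ x, R a x ∧ f x = c := by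
  have : Nonempty (Fin q) := ⟨⟨0, hq⟩⟩
  obtain ⟨f, hf⟩ := Finite.exists_max (fun f : β → Fin q => ∑ a, ∑ d, ind R q f a d)
  refine ⟨f, ?_⟩
  intro a0 ha0 c
  by_contra hc
  -- a colour which appears twice
  have hpig : ∃ x ∈ Finset.univ.filter (R a0), ∃ y ∈ Finset.univ.filter (R a0), x ≠ y ∧ f x = f y := by
    refine Finset.exists_ne_map_eq_of_card_lt_of_maps_to (t := Finset.univ.erase c) ?_ ?_
    · rw [Finset.card_erase_of_mem (Finset.mem_univ _), Finset.card_univ, Fintype.card_fin]
      omega
    · intro x hx
      rw [Finset.mem_coe, Finset.mem_filter] at hx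
      rw [Finset.mem_coe, Finset.mem_erase]
      exact ⟨fun h' => hc ⟨x, hx.2, h'⟩, Finset.mem_univ _⟩
  obtain ⟨x, hx, y, hy, hxy, hfxy⟩ := hpig
  rw [Finset.mem_filter] at hx hy
  obtain ⟨j, hj⟩ : ∃ j, j = f x := ⟨_, rfl⟩
  have hcj : c ≠ j := by
    rintro rfl
    exact hc ⟨x, hx.2, hj.symm⟩
  obtain ⟨g, hg⟩ := bicolor h (Finset.univ.filter (fun x => f x = c ∨ f x = j))
  let f' : β → Fin q := fun x => if f x = c ∨ f x = j then (if g x then c else j) else f x
  have hother : ∀ a d, d ≠ c → d ≠ j → ind R q f' a d = ind R q f a d := by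
    intro a d hdc hdj
    unfold ind
    congr 1
    apply propext
    refine exists_congr fun w => and_congr_right fun _ => ?_
    simp only [f']
    split_ifs with h1 h2
    · constructor
      · intro h3; exact absurd h3.symm hdc
      · intro h3
        rcases h1 with h1 | h1
        · exact absurd (h3.symm.trans h1) hdc
        · exact absurd (h3.symm.trans h1) hdj
    · constructor
      · intro h3; exact absurd h3.symm hdj
      · intro h3
        rcases h1 with h1 | h1
        · exact absurd (h3.symm.trans h1) hdc
        · exact absurd (h3.symm.trans h1) hdj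
    · rfl
  have hboth : ∀ a, 2 ≤ ((Finset.univ.filter (fun x => f x = c ∨ f x = j)).filter (R a)).card →
      ind R q f' a c = 1 ∧ ind R q f' a j = 1 := by
    intro a ha
    have hga := hg a ha
    constructor
    · obtain ⟨w, hw, hw1, hw2⟩ := hga true
      rw [Finset.mem_filter] at hw
      unfold ind
      rw [if_pos ⟨w, hw1, by simp [f', hw.2, hw2]⟩]
    · obtain ⟨w, hw, hw1, hw2⟩ := hga false
      rw [Finset.mem_filter] at hw
      unfold ind
      rw [if_pos ⟨w, hw1, by simp [f', hw.2, hw2]⟩]
  have hle1 : ∀ f a d, ind R q f a d ≤ 1 := by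
    intro f a d; unfold ind; split_ifs <;> omega
  have htwo : ∀ a, ind R q f a c + ind R q f a j ≤ ind R q f' a c + ind R q f' a j := by
    intro a
    by_cases h2 : 2 ≤ ((Finset.univ.filter (fun x => f x = c ∨ f x = j)).filter (R a)).card
    · obtain ⟨e1, e2⟩ := hboth a h2
      have := hle1 f a c
      have := hle1 f a j
      omega
    · -- at most one element
      have huniq : ∀ w w', R a w → (f w = c ∨ f w = j) → R a w' → (f w' = c ∨ f w' = j) → w = w' := by
        intro w w' h1 h3 h1' h3'
        by_contra hne
        apply h2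
        have hsub : ({w, w'} : Finset β) ⊆
            (Finset.univ.filter (fun x => f x = c ∨ f x = j)).filter (R a) := by
          intro v hv
          rw [Finset.mem_insert, Finset.mem_singleton] at hv
          rcases hv with rfl | rfl
          · simp [h1, h3]
          · simp [h1', h3']
        have := Finset.card_le_card hsub
        rwa [Finset.card_pair hne] at this
      by_cases hex : ∃ w, R a w ∧ (f w = c ∨ f w = j)
      · obtain ⟨w, hw1, hw2⟩ := hex
        have h5 : ind R q f a c + ind R q f a j ≤ 1 := by
          unfold ind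
          split_ifs with c1 c2
          · exfalso
            obtain ⟨v, v1, v2⟩ := c1
            obtain ⟨v', v1', v2'⟩ := c2
            have := huniq v v' v1 (Or.inl v2) v1' (Or.inr v2')
            subst this
            exact hcj (v2.symm.trans v2')
          all_goals omega
        have h6 : 1 ≤ ind R q f' a c + ind R q f' a j := by
          cases hgw : g w
          · have : ind R q f' a j = 1 := by
              unfold ind
              rw [if_pos ⟨w, hw1, by simp [f', hw2, hgw]⟩]
            omega
          · have : ind R q f' a c = 1 := by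
              unfold ind
              rw [if_pos ⟨w, hw1, by simp [f', hw2, hgw]⟩]
            omega
        omega
      · have h5 : ind R q f a c = 0 := by
          unfold ind
          rw [if_neg]
          rintro ⟨w, w1, w2⟩
          exact hex ⟨w, w1, Or.inl w2⟩
        have h6 : ind R q f a j = 0 := by
          unfold ind
          rw [if_neg]
          rintro ⟨w, w1, w2⟩
          exact hex ⟨w, w1, Or.inr w2⟩
        omega
  have hstrict : ind R q f a0 c + ind R q f a0 j < ind R q f' a0 c + ind R q f' a0 j := by
    have h2 : 2 ≤ ((Finset.univ.filter (fun x => f x = c ∨ f x = j)).filter (R a0)).card := by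
      have hsub : ({x, y} : Finset β) ⊆
          (Finset.univ.filter (fun x => f x = c ∨ f x = j)).filter (R a0) := by
        intro v hv
        rw [Finset.mem_insert, Finset.mem_singleton] at hv
        rcases hv with rfl | rfl
        · simp [hx.2, hj]
        · simp [hy.2, hj, hfxy]
      have := Finset.card_le_card hsub
      rwa [Finset.card_pair hxy] at this
    obtain ⟨e1, e2⟩ := hboth a0 h2
    have h5 : ind R q f a0 c = 0 := by
      unfold ind
      rw [if_neg hc]
    have := hle1 f a0 j
    omega
  have hsplit : ∀ (f : β → Fin q) a, ∑ d, ind R q f a d =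
      ind R q f a c + ind R q f a j + ∑ d ∈ (Finset.univ.erase c).erase j, ind R q f a d := by
    intro f a
    rw [← Finset.add_sum_erase _ _ (Finset.mem_univ c),
      ← Finset.add_sum_erase _ _ (Finset.mem_erase.2 ⟨hcj.symm, Finset.mem_univ j⟩), add_assoc]
  have hrest : ∀ a, ∑ d ∈ (Finset.univ.erase c).erase j, ind R q f' a d =
      ∑ d ∈ (Finset.univ.erase c).erase j, ind R q f a d := by
    intro a
    refine Finset.sum_congr rfl fun d hd => ?_
    rw [Finset.mem_erase, Finset.mem_erase] at hd
    exact hother a d hd.2.1 hd.1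
  have hlt : ∑ a, ∑ d, ind R q f a d < ∑ a, ∑ d, ind R q f' a d := by
    refine Finset.sum_lt_sum ?_ ⟨a0, Finset.mem_univ _, ?_⟩
    · intro a _
      rw [hsplit f a, hsplit f' a, hrest a]
      have := htwo a
      omega
    · rw [hsplit f a0, hsplit f' a0, hrest a0]
      omega
  exact absurd (hf f') (not_le.2 hlt)

end qcolor

section cover
open Classical

/-- A multiset of vertices that covers all closed neighbourhoods many times contains a small
dominating set. -/
theorem small_cover [Fintype α] {γ : Type*} {R : α → γ → Prop} (h : NoSpec R)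
    (T k : ℕ) (v : Fin T → γ) (hv : ∀ a, T < (k + 1) * (Finset.univ.filter (fun t => R a (v t))).card) :
    ∃ D : Finset γ, D.card ≤ k ∧ ∀ a, ∃ d ∈ D, R a d := by
  rcases isEmpty_or_nonempty α with hα | hα
  · exact ⟨∅, by simp, fun a => (hα.false a).elim⟩
  obtain ⟨a0, ha0⟩ := Finite.exists_min
    (fun a => (Finset.univ.filter (fun t => R a (v t))).card)
  obtain ⟨q, hq⟩ : ∃ q, q = (Finset.univ.filter (fun t => R a0 (v t))).card := ⟨_, rfl⟩
  have hTq : T < (k + 1) * q := by rw [hq]; exact hv a0
  have hq1 : 1 ≤ q := by
    rw [Nat.one_le_iff_ne_zero]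
    rintro h0
    rw [h0] at hTq
    omega
  have hR : NoSpec (fun a (t : Fin T) => R a (v t)) := by
    intro m hm ho u x hs
    exact h m hm ho u (fun i => v (x i)) hs
  obtain ⟨f, hf⟩ := qcolor hR q hq1
  have hfall : ∀ a c, ∃ t, R a (v t) ∧ f t = c := fun a c => hf a (by rw [hq]; exact ha0 a) c
  -- a small class
  have hsum : ∑ c : Fin q, (Finset.univ.filter (fun t => f t = c)).card = T := by
    rw [← Finset.card_eq_sum_card_fiberwise (f := f) (s := Finset.univ) (t := Finset.univ)]
    · simp
    · intro x _; simp
  obtain ⟨c, hc⟩ : ∃ c : Fin q, (Finset.univ.filter (fun t => f t = c)).card ≤ k := by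
    by_contra hno
    push Not at hno
    have h1 : ∑ c : Fin q, (k + 1) ≤ ∑ c : Fin q, (Finset.univ.filter (fun t => f t = c)).card :=
      Finset.sum_le_sum fun c _ => hno c
    rw [hsum, Finset.sum_const, Finset.card_univ, Fintype.card_fin, smul_eq_mul, mul_comm] at h1
    omega
  refine ⟨(Finset.univ.filter (fun t => f t = c)).image v, Finset.card_image_le.trans hc, ?_⟩
  intro a
  obtain ⟨t, ht, htc⟩ := hfall a c
  exact ⟨v t, Finset.mem_image.2 ⟨t, by simp [htc], rfl⟩, ht⟩

end cover

end Pool.Agent.W989.BC
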