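import Pool.Agent.W989.BC.Algo

/-!
# Dominating set is solvable in polynomial time on balanced chordal graphs

The proof has three parts.

* If `G` is chordal and its clique hypergraph is balanced, then the closed neighbourhood matrix of
  `G` is balanced.  Indeed, in a chordal graph a special cycle of the closed neighbourhood
  relation, with rows `u i` and columns `x i`, is such that all `u i, u (i + 1)` are adjacent or all
  `x i, x (i + 1)` are adjacent, and then there is a special cycle of the same length in the
  clique hypergraph.
* By the theorems of Berge on good colourings of balanced hypergraphs, the domination number of `G`
  is equal to the fractional domination number.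
* The latter is computed in polynomial time with a multiplicative weights algorithm, to a
  sufficient accuracy.
-/

namespace Pool.Agent.W989.BC.Result

open Pool.Agent.NPC Pool.Agent.H622R2 Pool.Agent.W989.BC

/-- Some polynomial-time algorithm decides, given (the adjacency matrix of) a chordal graph whose
clique hypergraph is balanced and a number `k`, if the graph has a dominating set with at most `k`
vertices. -/
theorem result : ∃ V : List Bool → List Bool, PolyTime V ∧ ∀ (M : List (List Bool)) (k : ℕ),
    IsChordal (matGraph M) → BalancedCliques (matGraph M) →
      (V (bits (M, k)) = [true] ↔ HasDominatingSet (matGraph M) k) :=
  main

end Pool.Agent.W989.BC.Result
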